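import Pool.Agent.L5helper86.ED.S8

/-!
# The direction of the vorticity at one point of maximal vorticity, without velocity hypotheses

If near one point of maximal vorticity the direction of the vorticity is Hölder continuous on the
length scale `1 / G`, the stretching rate there is bounded in terms of the energy, of `G` and of a
power less than one of the vorticity. Hence an integral criterion for regularity with the exponent
`1 - β / 2` in place of `1`, the exclusion of Type I singularities up to the scale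
`(T - t) ^ (2 / 5)`, and lower bounds of the rate of a singularity. No bound of the velocity is
assumed.
-/

set_option autoImplicit false

open MeasureTheory Set Filter
open scoped ENNReal Topology

namespace Pool.Agent.Results.MP_b0497c_an.DirectionWithoutVelocity

open Pool.Agent.H708R2.EulerSign Pool.Agent.H708R2.EulerTypeI Pool.Agent.W786.Max
  Pool.Agent.L5helper86.ED

/-- Let `0 < β ≤ 1`. There is a constant `c > 0` which depends only on `β` such that:

* (static estimate) for a periodic divergence free `C²` field `v` with energy at most `E` and a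
  point `x` of maximal vorticity `Ω` with coherent directions on the scale `1 / G ≤ 1`,
  `c |ω · (∇v) ω| ≤ (g + g ^ (β / 2) Ω ^ (1 - β / 2)) Ω²` with `g = √(E G⁵)`;
* (integral criterion) a `C²` solution of the Euler equations has a finite Beale-Kato-Majda
  integral if for almost every `t` near `T` the directions are coherent on the scale `1 / G(t)` at
  one point of maximal vorticity (or the vorticity there is at most `Λ`), and
  `G ^ (5 / 2)` and `G ^ (5 β / 4) m ^ (1 - β / 2)` are integrable, `m` a bound of the vorticity;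
* (Type I) if `(T - t) |ω| ≤ C₁` and `(T - t) √(E G⁵) ≤ c C₁ ^ (1 - 2 / β)` near `T`, then the
  vorticity is `O((T - t) ^ (-1 / 2))` and the integral is finite;
* (rate) if `G ≤ A (T - t) ^ (-σ)` with `0 ≤ σ < 2 / 5`, then the integral is finite or the maximum
  of the vorticity is at least `c' (T - t) ^ (-(4 - 5 σ β) / (4 - 2 β))` near `T`. -/
theorem result (β : ℝ) (hβ0 : 0 < β) (hβ1 : β ≤ 1) :
    ∃ c : ℝ, 0 < c ∧
    (∀ (v : V → V) (x : V) (G E : ℝ), ContDiff ℝ 2 v → Periodic3 v →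
      (∀ y, divergence v y = 0) → 1 ≤ G → 0 < E → en2 v ≤ E → Coh β G v x →
      (∀ y, nrm (vort v y) ≤ nrm (vort v x)) →
      c * |vort v x ⬝ᵥ (grad v x).mulVec (vort v x)| ≤
        (Real.sqrt (E * G ^ 5) + Real.sqrt (E * G ^ 5) ^ (β / 2)
          * nrm (vort v x) ^ (1 - β / 2)) * nrm (vort v x) ^ 2) ∧
    (∀ (T t₀ Λ : ℝ) (u : ℝ → V → V) (p : ℝ → V → ℝ) (G m : ℝ → ℝ),
      IsC2Solution T u p → t₀ ∈ Ico 0 T →
      IntegrableOn (fun t => G t ^ (5 / 2 : ℝ)) (Ioo t₀ T) →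
      IntegrableOn (fun t => G t ^ (5 * β / 4) * m t ^ (1 - β / 2)) (Ioo t₀ T) →
      (∀ᵐ t, t ∈ Ioo t₀ T → 1 ≤ G t ∧ ∃ x, IsMaxPt u t x ∧ nrm (vort (u t) x) ≤ m t ∧
        (Λ < nrm (vort (u t) x) → Coh β (G t) (u t) x)) →
      BKMFinite T u) ∧
    (∀ (T C₁ E : ℝ) (u : ℝ → V → V) (p : ℝ → V → ℝ) (G : ℝ → ℝ),
      0 < T → 1 ≤ C₁ → 0 < E → en2 (u 0) ≤ E → IsC2Solution T u p →
      (∀ᶠ t in 𝓝[<] T, ∀ x, (T - t) * nrm (vort (u t) x) ≤ C₁) →
      (∀ᶠ t in 𝓝[<] T, 1 ≤ G t ∧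
        (T - t) * Real.sqrt (E * G t ^ 5) ≤ c * C₁ ^ (1 - 2 / β) ∧
        ∃ x, IsMaxPt u t x ∧
          (1 / Real.sqrt (T - t) < nrm (vort (u t) x) → Coh β (G t) (u t) x)) →
      (∃ C : ℝ, ∀ᶠ t in 𝓝[<] T, ∀ x, nrm (vort (u t) x) ≤ C / Real.sqrt (T - t)) ∧
      BKMFinite T u) ∧
    (∀ (T A σ : ℝ) (u : ℝ → V → V) (p : ℝ → V → ℝ) (G : ℝ → ℝ),
      0 < T → IsC2Solution T u p → 0 ≤ σ → σ < 2 / 5 →
      (∀ᶠ t in 𝓝[<] T, 1 ≤ G t ∧ G t ≤ A * (T - t) ^ (-σ) ∧
        ∃ x, IsMaxPt u t x ∧ Coh β (G t) (u t) x) →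
      BKMFinite T u ∨ ∃ c' : ℝ, 0 < c' ∧ ∀ᶠ t in 𝓝[<] T, ∃ x,
        c' / (T - t) ^ ((4 - 5 * σ * β) / (4 - 2 * β)) ≤ nrm (vort (u t) x)) := by
  have hC := CC_pos hβ0
  have hc := cT_pos hβ0
  refine ⟨min (1 / CC β) (cT β), lt_min (by positivity) hc, ?_, ?_, ?_, ?_⟩
  · intro v x G E hv hp hdiv hG hE hvE hcoh hmax
    have h1 := rate_static hβ0 hβ1 hv hp hdiv hG hE hvE hcoh hmax
    have h2 : min (1 / CC β) (cT β) ≤ 1 / CC β := min_le_left _ _
    have h3 : vort v x ⬝ᵥ vort v x = nrm (vort v x) ^ 2 := (nrm_sq _).symm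
    rw [h3] at h1
    have h4 := fr_pos hE hG
    have h5 : 0 ≤ nrm (vort v x) ^ (1 - β / 2) :=
      Real.rpow_nonneg (Real.sqrt_nonneg _) _
    have h6 : 0 ≤ (fr E G + fr E G ^ (β / 2) * nrm (vort v x) ^ (1 - β / 2)) := by
      have := Real.rpow_pos_of_pos h4 (β / 2)
      positivity
    show min (1 / CC β) (cT β) * |vort v x ⬝ᵥ (grad v x).mulVec (vort v x)| ≤
        (fr E G + fr E G ^ (β / 2) * nrm (vort v x) ^ (1 - β / 2)) * nrm (vort v x) ^ 2
    calc min (1 / CC β) (cT β) * |vort v x ⬝ᵥ (grad v x).mulVec (vort v x)|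
        ≤ 1 / CC β * (CC β * (fr E G + fr E G ^ (β / 2) * nrm (vort v x) ^ (1 - β / 2))
          * nrm (vort v x) ^ 2) := by gcongr
      _ = _ := by field_simp
  · intro T t₀ Λ u p G m h ht₀ hG hm hyp
    exact crit hβ0 hβ1 h ht₀ hG hm hyp
  · intro T C₁ E u p G hT hC₁ hE hE0 h hI hd
    refine type_one hβ0 hβ1 hT h (G := G) hC₁ hE hE0 hI ?_
    filter_upwards [hd] with t ht
    obtain ⟨h1, h2, h3⟩ := ht
    refine ⟨h1, h2.trans ?_, h3⟩
    have h4 : min (1 / CC β) (cT β) ≤ cT β := min_le_right _ _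
    have h5 : 0 < C₁ ^ (1 - 2 / β) := Real.rpow_pos_of_pos (by linarith) _
    gcongr
  · intro T A σ u p G hT h hσ0 hσ hG
    exact sing_rate hβ0 hβ1 hT h hσ0 hσ hG

end Pool.Agent.Results.MP_b0497c_an.DirectionWithoutVelocity
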