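import Pool.Agent.L5helper80.EC.Fin

/-!
# Euler on `𝕋³`: the vorticity is frozen near the centre of a flow of high symmetry

Flows of high symmetry (Kida, Pelz: the group `T_h` generated by the reflections in the coordinate
planes and the cyclic permutation of the coordinates) are the classical candidates for a collapse
of vortices onto the centre of symmetry. Let `S` be any set of symmetries of the cube such that
only scalar matrices commute with all of them (the five point groups `T, T_d, O, T_h, O_h` of the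
cubic lattice), put `k = 2`, or `k = 3` if `S` contains `-1`. If the initial velocity commutes with
`S`, then the velocity vanishes to the order `k` at the centre at all times. Consequently

* the vorticity is frozen in the core `|x|^(k-1) ∫ |Dᵏu| ≤ 1/4`: there
  `|ω(t,x) - ω(s,x)| ≤ 24 M(s) μ |x|^(2k-2)`, although `ω(s,x)` itself is in general of the size
  `|x|^(k-1)`. So the Taylor polynomial of `ω` of degree `2k-3` at the centre is conserved;
* the vorticity is not amplified in the core by more than the factor `2`; so a singularity is not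
  hidden in the cores: the Beale-Kato-Majda integral over the complement of the cores decides;
* if the solution collapses to the centre at the time `T` with the rate of a self-similar solution,
  `|Dᵏu| ≤ A (T-t)^(-1-(k-1)β)` for `|x| ≤ R (T-t)^β` (this holds for self-similar, discretely
  self-similar and asymptotically self-similar collapse), then the rescaled vorticity
  `(T-t) ω(t, (T-t)^β y)` tends to `0` uniformly for `|y| ≤ ρ`, with an explicit rate and an
  explicit radius `ρ`: every such collapse has an irrotational core.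
-/

open MeasureTheory Set
open scoped ENNReal NNReal Topology Pointwise Matrix

namespace Pool.Agent.Results.MP_b0497c_an.FrozenCentres

open Pool.Agent.H708R2.EulerSign Pool.Agent.H708R2.EulerTypeI Pool.Agent.L5helper80.EC

/-- The set `S` of matrices consists of symmetries of the cube, only scalar matrices commute with
all of them, and `k = 2`, or `k = 3` and `-1 ∈ S`. -/
def Centre (S : Set (Matrix (Fin 3) (Fin 3) ℝ)) (k : ℕ) : Prop :=
  (∀ R ∈ S, IsCubeSymmetry R) ∧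
  (∀ A : Matrix (Fin 3) (Fin 3) ℝ, (∀ R ∈ S, A * R = R * A) → ∃ c : ℝ, A = c • 1) ∧
  (k = 2 ∨ k = 3 ∧ (-1 : Matrix (Fin 3) (Fin 3) ℝ) ∈ S)

/-- Generators of the group `T_h`: the reflection `x ↦ (-x₀, x₁, x₂)`, the cyclic permutation
`x ↦ (x₁, x₂, x₀)` and `x ↦ -x`. -/
def highSymmetry : Set (Matrix (Fin 3) (Fin 3) ℝ) :=
  {!![-1, 0, 0; 0, 1, 0; 0, 0, 1], !![0, 1, 0; 0, 0, 1; 1, 0, 0], -1}

lemma centre_highSymmetry : Centre highSymmetry 3 := by
  refine ⟨?_, ?_, Or.inr ⟨rfl, by simp [highSymmetry]⟩⟩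
  · intro R hR
    simp only [highSymmetry, mem_insert_iff, mem_singleton_iff] at hR
    rcases hR with rfl | rfl | rfl
    · refine ⟨?_, fun i j => ?_⟩
      · ext i j
        fin_cases i <;> fin_cases j <;>
          simp [Matrix.mul_apply, Fin.sum_univ_three]
      · fin_cases i <;> fin_cases j <;>
          first
          | (refine ⟨0, ?_⟩; simp; done)
          | (refine ⟨1, ?_⟩; simp; done)
          | (refine ⟨-1, ?_⟩; simp; done)
    · refine ⟨?_, fun i j => ?_⟩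
      · ext i j
        fin_cases i <;> fin_cases j <;>
          simp [Matrix.mul_apply, Fin.sum_univ_three]
      · fin_cases i <;> fin_cases j <;>
          first
          | (refine ⟨0, ?_⟩; simp; done)
          | (refine ⟨1, ?_⟩; simp; done)
    · refine ⟨by simp, fun i j => ?_⟩
      fin_cases i <;> fin_cases j <;>
        first
        | (refine ⟨0, ?_⟩; simp; done)
        | (refine ⟨-1, ?_⟩; simp; done)
  · intro A hA
    have h1 := hA !![-1, 0, 0; 0, 1, 0; 0, 0, 1] (by simp [highSymmetry])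
    have h2 := hA !![0, 1, 0; 0, 0, 1; 1, 0, 0] (by simp [highSymmetry])
    have e1 := fun i j => congrFun (congrFun h1 i) j
    have e2 := fun i j => congrFun (congrFun h2 i) j
    simp only [Matrix.mul_apply, Fin.sum_univ_three] at e1 e2
    have a01 := e1 0 1
    have a02 := e1 0 2
    have a10 := e1 1 0
    have a20 := e1 2 0
    simp at a01 a02 a10 a20
    have b00 := e2 0 0
    have b01 := e2 0 1
    have b02 := e2 0 2
    have b10 := e2 1 0
    have b11 := e2 1 1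
    have b12 := e2 1 2
    have b20 := e2 2 0
    have b21 := e2 2 1
    have b22 := e2 2 2
    simp at b00 b01 b02 b10 b11 b12 b20 b21 b22
    refine ⟨A 0 0, ?_⟩
    ext i j
    fin_cases i <;> fin_cases j <;> simp <;> linarith

/-- `x` has distance (in the maximum norm) more than `r` from all points of the lattice `2πℤ³`. -/
def Outside (r : ℝ) (x : V) : Prop :=
  ∀ m : Fin 3 → ℤ, r < ‖fun i => x i - 2 * Real.pi * m i‖

/-- The centre is flat of the order `k`: the derivatives of the velocity of order less than `k` in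
the space variables vanish at the point `0` at all times `t ∈ [0, T)`. -/
def FlatCentre (k : ℕ) (T : ℝ) (u : ℝ → V → V) : Prop :=
  ∀ t ∈ Ico 0 T, ∀ j < k, iteratedFDeriv ℝ j (u t) 0 = 0

/-- (2) The vorticity is frozen in the core, and not amplified by more than the factor `2`. -/
def FrozenCore (k : ℕ) (T : ℝ) (u : ℝ → V → V) : Prop :=
  ∀ (s t : ℝ) (x : V) (M : ℝ → ℝ), 0 ≤ s → s ≤ t → t < T → ContinuousOn M (Icc s t) →
    (∀ τ ∈ Icc s t, ∀ y, ‖y‖ ≤ 2 * ‖x‖ → ‖iteratedFDeriv ℝ k (u τ) y‖ ≤ M τ) →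
    ‖x‖ ^ (k - 1) * ∫ τ in s..t, M τ ≤ 1 / 4 →
      (∃ a, ‖a‖ ≤ 2 * ‖x‖ ∧ ‖vort (u t) x‖ ≤ 2 * ‖vort (u s) a‖) ∧
      ‖vort (u s) x‖ ≤ 4 * M s * ‖x‖ ^ (k - 1) ∧
      ‖vort (u t) x - vort (u s) x‖ ≤ 24 * M s * (∫ τ in s..t, M τ) * ‖x‖ ^ (2 * (k - 1)) ∧
      ∀ N₀ N₁, (∀ y, ‖y‖ ≤ 2 * ‖x‖ → ‖vort (u s) y‖ ≤ N₀) →
        (∀ y, ‖y‖ ≤ 2 * ‖x‖ → ‖fderiv ℝ (vort (u s)) y‖ ≤ N₁) →
        ‖vort (u t) x - vort (u s) x‖
          ≤ ‖x‖ ^ (k - 1) * (∫ τ in s..t, M τ) * (4 * N₀ + 2 * ‖x‖ * N₁)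

/-- (3) If the Beale-Kato-Majda integral over the complement of the cores is finite, then so is the
whole Beale-Kato-Majda integral. -/
def BKMOutsideCores (k : ℕ) (T : ℝ) (u : ℝ → V → V) : Prop :=
  ∀ M r : ℝ → ℝ, ContinuousOn M (Ico 0 T) →
    (∀ t ∈ Ico 0 T, ∀ y, ‖iteratedFDeriv ℝ k (u t) y‖ ≤ M t) →
    (∀ t ∈ Ioo 0 T, 0 ≤ r t ∧ r t ^ (k - 1) * ∫ τ in (0 : ℝ)..t, M τ ≤ 1 / 4) →
    ∫⁻ t in Ioo 0 T, ⨆ x : V, ⨆ (_ : Outside (r t) x), ENNReal.ofReal (nrm (vort (u t) x)) < ∞ →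
    BKMFinite T u

/-- (4) Collapse with an arbitrary length scale `L`, `L' = -W ≤ 0`, has an irrotational core. -/
def ScaleCollapse (k : ℕ) (T : ℝ) (u : ℝ → V → V) : Prop :=
  ∀ (L W : ℝ → ℝ) (A R t₀ ρ : ℝ), 0 ≤ A → t₀ ∈ Ico 0 T →
    (∀ t ∈ Ico t₀ T, HasDerivAt L (-W t) t ∧ 0 < L t ∧ 0 ≤ W t) → ContinuousOn W (Ico t₀ T) →
    (∀ t ∈ Ico t₀ T, ∀ y, ‖y‖ ≤ R * L t → ‖iteratedFDeriv ℝ k (u t) y‖ ≤ A * W t / L t ^ k) →
    0 ≤ ρ → 2 * ρ ≤ R → 4 * A * ρ ^ (k - 1) ≤ (k : ℝ) - 1 →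
    ∀ t ∈ Ico t₀ T, ∀ x, ‖x‖ ≤ ρ * L t →
      ‖vort (u t) x‖ ≤ 8 * (A * W t₀ / L t₀ ^ k) * ‖x‖ ^ (k - 1)

/-- (5) Collapse with the rate of a self-similar solution has an irrotational core. -/
def PowerCollapse (k : ℕ) (T : ℝ) (u : ℝ → V → V) : Prop :=
  ∀ β A R t₀ ρ : ℝ, 0 < β → 0 ≤ A → t₀ ∈ Ico 0 T →
    (∀ t ∈ Ico t₀ T, ∀ y, ‖y‖ ≤ R * (T - t) ^ β →
      ‖iteratedFDeriv ℝ k (u t) y‖ ≤ A * (T - t) ^ (-1 - ((k : ℝ) - 1) * β)) →
    0 ≤ ρ → 2 * ρ ≤ R → 4 * A * ρ ^ (k - 1) ≤ ((k : ℝ) - 1) * β →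
    ∀ t ∈ Ico t₀ T, ∀ x, ‖x‖ ≤ ρ * (T - t) ^ β →
      (T - t) * ‖vort (u t) x‖
        ≤ 2 * (((k : ℝ) - 1) * β) * ((T - t) / (T - t₀)) ^ (1 + ((k : ℝ) - 1) * β)

/-- The main theorem. `IsC2Solution T u p` : `(u, p)` is a classical solution of the Euler equations
on `𝕋³ = (ℝ / 2πℤ)³` on the time interval `[0, T)`, of class `C²` for `t > 0`. `vort (u t) x` is
the vorticity. Norms are maximum norms. -/
theorem result :
    -- the group `T_h` is an example with `k = 3`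
    Centre highSymmetry 3 ∧
    ∀ (T : ℝ) (u : ℝ → V → V) (p : ℝ → V → ℝ) (k : ℕ), 2 ≤ k → IsC2Solution T u p →
      (∀ t ∈ Ico 0 T, ContDiff ℝ k (u t)) →
    -- (1) symmetries of the initial velocity persist and make the centre flat
    (∀ S, Centre S k → (∀ R ∈ S, Equivariant R (u 0)) →
      FlatCentre k T u ∧ ∀ t ∈ Ico 0 T, ∀ R ∈ S, Equivariant R (u t)) ∧
    -- (2) - (5) for flat centres
    (FlatCentre k T u →
      FrozenCore k T u ∧ BKMOutsideCores k T u ∧ ScaleCollapse k T u ∧ PowerCollapse k T u) := by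
  refine ⟨centre_highSymmetry, fun T u p k hk2 h hk => ⟨fun S hS h0 => ?_, fun hz => ?_⟩⟩
  · have heq : ∀ t ∈ Ico 0 T, ∀ R ∈ S, Equivariant R (u t) := fun t ht R hR =>
      equivariant_of_zero (hS.1 R hR) h.sol (h0 R hR) t ht
    exact ⟨fun t ht => iter_zero hS.2.1 hS.1 hS.2.2 (heq t ht) (hk t ht)
      (h.sol.div_free t ht 0), heq⟩
  · obtain ⟨n, rfl⟩ : ∃ n, k = n + 2 := ⟨k - 2, by omega⟩
    have e1 : n + 2 - 1 = n + 1 := by omega
    have e2 : (((n + 2 : ℕ) : ℝ) - 1) = (n : ℝ) + 1 := by push_cast; ring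
    unfold FrozenCore BKMOutsideCores ScaleCollapse PowerCollapse
    rw [e1, e2]
    refine ⟨?_, ?_, ?_, ?_⟩
    · intro s t x M hs hst ht hMc hM hI
      have hsub : ∀ τ ∈ Icc s t, τ ∈ Ico 0 T := fun τ hτ => ⟨hs.trans hτ.1, hτ.2.trans_lt ht⟩
      have hsI : s ∈ Icc s t := ⟨le_rfl, hst⟩
      have hk' := fun τ hτ => hk τ (hsub τ hτ)
      have hz' := fun τ hτ => hz τ (hsub τ hτ)
      have hM0 : 0 ≤ M s := (norm_nonneg _).trans (hM s hsI 0 (by simp))
      have b0 : ∀ y, ‖y‖ ≤ 2 * ‖x‖ → ‖vort (u s) y‖ ≤ 4 * ‖x‖ ^ (n + 1) * M s := fun y hy =>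
        vort_le_of_flat (hk' s hsI) (hz' s hsI) (norm_nonneg x) (hM s hsI) hy
      have b1 : ∀ y, ‖y‖ ≤ 2 * ‖x‖ → ‖fderiv ℝ (vort (u s)) y‖ ≤ 4 * ‖x‖ ^ n * M s := by
        intro y hy
        have h1 : ContDiff ℝ 1 (fderiv ℝ (u s)) := (hk' s hsI).fderiv_right (m := 1) (by
          have : ((1 : ℕ) + 1 : WithTop ℕ∞) ≤ ((n + 2 : ℕ) : WithTop ℕ∞) := by
            exact_mod_cast (by omega : 1 + 1 ≤ n + 2)
          simpa using this)
        have h2 : vort (u s) = fun x => cvL (fderiv ℝ (u s) x) :=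
          funext fun x => vort_eq_cvL _ x
        have h3 : HasFDerivAt (vort (u s)) (cvL ∘L fderiv ℝ (fderiv ℝ (u s)) y) y := by
          rw [h2]
          exact cvL.hasFDerivAt.comp y (h1.differentiable one_ne_zero y).hasFDerivAt
        rw [h3.fderiv]
        have h4 := (flat_bounds (hk' s hsI) (hz' s hsI) (norm_nonneg x) (hM s hsI) hy).2.2
        refine ContinuousLinearMap.opNorm_le_bound _ (by positivity) fun z => ?_
        calc ‖(cvL ∘L fderiv ℝ (fderiv ℝ (u s)) y) z‖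
            ≤ 2 * ‖fderiv ℝ (fderiv ℝ (u s)) y z‖ := norm_cvL_le _
          _ ≤ 2 * (‖fderiv ℝ (fderiv ℝ (u s)) y‖ * ‖z‖) := by
              gcongr
              exact ContinuousLinearMap.le_opNorm _ _
          _ ≤ 2 * ((2 * ‖x‖ ^ n * M s) * ‖z‖) := by gcongr
          _ = 4 * ‖x‖ ^ n * M s * ‖z‖ := by ring
      refine ⟨frozen_bound h hs hst ht hk' hz' hMc hM hI, ?_, ?_, ?_⟩
      · have := b0 x (by linarith [norm_nonneg x])
        linarith
      · have := frozen_diff h hs hst ht hk' hz' hMc hM hI b0 b1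
        refine this.trans (le_of_eq ?_)
        ring
      · intro N₀ N₁ h0 h1
        exact frozen_diff h hs hst ht hk' hz' hMc hM hI h0 h1
    · intro M r hMc hM hr hout
      exact bkm_outside h hk hz hMc hM hr hout
    · intro L W A R t₀ ρ hA ht₀ hL hWc hD hρ0 hρR hρ t ht x hx
      refine collapse_scale h hk hz hA ht₀ (fun τ hτ => (hL τ hτ).1)
        (fun τ hτ => (hL τ hτ).2.1) (fun τ hτ => (hL τ hτ).2.2) hWc hD hρ0 hρR hρ ht hx
    · intro β A R t₀ ρ hβ hA ht₀ hD hρ0 hρR hρ t ht x hx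
      exact collapse h hk hz hβ hA ht₀ hD hρ0 hρR hρ ht hx

end Pool.Agent.Results.MP_b0497c_an.FrozenCentres
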