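import Pool.Agent.L5helper39.EU.Main

/-!
# One-sided conditions on the pressure Hessian at the points of large vorticity

Let `ξ = ω / |ω|` be the direction of the vorticity of a `C²` periodic solution of the Euler
equations, `α = ξ · (∇u) ξ` the stretching rate and `χ = (∇u) ξ - α ξ` the velocity with which `ξ`
turns. Along particle paths `|ω|' = α |ω|` and `α' = |χ|² - α² - ξ · D²p ξ`. So for every `θ > 0`

`(|ω|^θ)'' = θ (|χ|² + (θ - 1) α² - ξ · D²p ξ) |ω|^θ`,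

and an upper bound for this quantity, one-sided in the pressure, controls the growth of `|ω|`. Since
`|S|² ≥ 3/2 α² + 2 |χ|²` for the rate of strain `S`, the exponent `θ = 7/4` gives the criterion

`(T - t)² (|S|² - 2 ξ · D²p ξ) ≤ 11/2 - κ / log (1/(T - t))`, `κ > 9`,

with sharp constants `11/2` and `9`. It is needed only where the vorticity is large. With
`|S|² = |ω|² / 2 - Δp` it excludes singularities with `|ω| ≤ ρ / (T - t)` and `D²p ≥ -c / (T - t)²`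
at the points of large vorticity, if `ρ² + 10 c < 11`.
-/

open MeasureTheory Set
open scoped ENNReal Topology

namespace Pool.Agent.Results.MP_b0497c_an.OneSidedPressure

open Pool.Agent.H708R2.EulerSign Pool.Agent.H708R2.EulerTypeI Pool.Agent.L5helper39.EU

/-- (1) The criterion for `|χ|² + (θ - 1) α² - ξ · D²p ξ` (`crit θ`), `θ > 0`, with the constants
`θ + 1` and `κ > 2 θ + 1`. (2) The criterion for `|S|² - 2 ξ · D²p ξ` with the constants `11/2` and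
`κ > 9`. (3) No singularity if `|ω| ≤ ρ / (T - t)` and `D²p ≥ -c / (T - t)²` where the vorticity is
large, `ρ² + 10 c < 11`. (4), (5) For smooth non-periodic solutions, linear in `x`, (1) fails for
each `κ < 2 θ + 1` and (2) fails for each `κ < 9`. -/
theorem result :
    (∀ (T θ κ γ δ M : ℝ) (u : ℝ → V → V) (p : ℝ → V → ℝ), 0 < T → 0 < θ → 2 * θ + 1 < κ →
      1 < γ → 0 ≤ δ → IsC2Solution T u p →
      Hyp T δ γ M (θ + 1) κ u (fun t x => crit θ (u t) (p t) x) →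
      (∃ C : ℝ, ∀ᶠ t in 𝓝[<] T, ∀ x, nrm (vort (u t) x)
        ≤ C / ((T - t) * Real.log (1 / (T - t)) ^ min γ (κ / (2 * θ + 1)))) ∧
      BKMFinite T u) ∧
    (∀ (T κ γ δ M : ℝ) (u : ℝ → V → V) (p : ℝ → V → ℝ), 0 < T → 9 < κ → 1 < γ → 0 ≤ δ →
      IsC2Solution T u p →
      Hyp T δ γ M (11 / 2) κ u (fun t x => strainSq (u t) x - 2 * pressDir (u t) (p t) x) →
      (∃ C : ℝ, ∀ᶠ t in 𝓝[<] T, ∀ x, nrm (vort (u t) x)
        ≤ C / ((T - t) * Real.log (1 / (T - t)) ^ min γ (κ / 9))) ∧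
      BKMFinite T u) ∧
    (∀ (T ρ c γ δ M : ℝ) (u : ℝ → V → V) (p : ℝ → V → ℝ), 0 < T → ρ ^ 2 + 10 * c < 11 →
      1 < γ → 0 ≤ δ → IsC2Solution T u p →
      (∀ᶠ t in 𝓝[<] T, ∀ x, vort (u t) x ≠ 0 → level T δ γ t ≤ nrm (vort (u t) x) →
        (T - t) * nrm (vort (u t) x) ≤ ρ ∧
        (∀ e : V, -(c / (T - t) ^ 2) * (e ⬝ᵥ e) ≤ e ⬝ᵥ (hess (p t) x).mulVec e) ∧
        (nrm (vort (u t) x) = level T δ γ t → (T - t) * stretch (u t) x ≤ M)) →
      BKMFinite T u) ∧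
    (∀ T θ κ : ℝ, 0 < T → 0 < θ → κ < 2 * θ + 1 →
      ∃ (u : ℝ → V → V) (p : ℝ → V → ℝ), IsSpaceSolution T u p ∧
        (∀ t, ∃ A : Matrix (Fin 3) (Fin 3) ℝ, ∀ x, u t x = A.mulVec x) ∧
        (∀ δ γ : ℝ, Hyp T δ γ 1 (θ + 1) κ u (fun t x => crit θ (u t) (p t) x)) ∧
        ¬ BKMFinite T u) ∧
    (∀ T κ : ℝ, 0 < T → κ < 9 →
      ∃ (u : ℝ → V → V) (p : ℝ → V → ℝ), IsSpaceSolution T u p ∧
        (∀ t, ∃ A : Matrix (Fin 3) (Fin 3) ℝ, ∀ x, u t x = A.mulVec x) ∧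
        (∀ δ γ : ℝ, Hyp T δ γ 1 (11 / 2) κ u
          (fun t x => strainSq (u t) x - 2 * pressDir (u t) (p t) x)) ∧
        ¬ BKMFinite T u) :=
  ⟨fun _ _ _ _ _ _ _ _ hT hθ hκ hγ hδ h hyp => main hT h hθ hκ hγ hδ hyp,
    fun _ _ _ _ _ _ _ hT hκ hγ hδ h hyp => strain_crit hT h hκ hγ hδ hyp,
    fun _ _ _ _ _ _ _ _ hT hρ hγ hδ h hyp => pressure_crit hT h hρ hγ hδ hyp,
    fun T _ _ hT _ hκ => ⟨uf T, pf T, uf_solution T,
      fun t => ⟨Af T t, fun x => congrFun (uf_eq T t) x⟩, uf_hyp_crit hT hκ, uf_not_bkm hT⟩,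
    fun T _ hT hκ => ⟨uf T, pf T, uf_solution T,
      fun t => ⟨Af T t, fun x => congrFun (uf_eq T t) x⟩, uf_hyp_strain hT hκ, uf_not_bkm hT⟩⟩

end Pool.Agent.Results.MP_b0497c_an.OneSidedPressure
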