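import Pool.Agent.L5helper76.SB.Cor

/-!
Spectral barriers for the Euler equations.
-/

open MeasureTheory Set Filter Topology
open scoped ContDiff

namespace Pool.Agent.Results.MP_b0497c_an.SpectralBarrier

open H459R3.NS Pool.Agent.L5helper76

/-- the frequencies `k` with `|k j| ≤ n` for all `j` -/
noncomputable def box (n : ℕ) : Finset K3 := Fintype.piFinset fun _ => Finset.Icc (-(n : ℤ)) n

/-- The low frequency part of the vector field `v`. -/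
noncomputable def low (n : ℕ) (v : V → V) (x : V) (i : Fin 3) : ℝ :=
  (∑ k ∈ box n, fr (fun y => v y i) k * ee k x).re

/-- The high frequency part of the vector field `v`. -/
noncomputable def high (n : ℕ) (v : V → V) (x : V) (i : Fin 3) : ℝ := v x i - low n v x i

/-- The inner product of the third derivatives. -/
noncomputable def inner3 (v w : V → V) : ℝ :=
  ∑ l, ∑ i, ∑ j, ∑ k, ∫ x in cube,
    pd i (pd j (pd k fun y => v y l)) x * pd i (pd j (pd k fun y => w y l)) x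

/-- The field `(v·∇)v`. -/
noncomputable def adv (v : V → V) (x : V) (l : Fin 3) : ℝ := ∑ m, v x m * pd m (fun y => v y l) x

/-- The flux of the low frequencies into the high ones, for the norm of the third derivatives. -/
noncomputable def flux (n : ℕ) (v : V → V) : ℝ := -2 * inner3 (adv (low n v)) (high n v)

/-- The `L²` norm of the part with frequencies in the shell `n < max |k j| ≤ 2n`. -/
noncomputable def shell (n : ℕ) (v : V → V) : ℝ :=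
  Real.sqrt (∑ l, ∑ k ∈ box (2 * n) \ box n, ‖fr (fun y => v y l) k‖ ^ 2)

/-- `n` is a nondecreasing function on `[t₀, T)`, constant on the right of each point, with
`E n^(5/2) (T - t) ≤ c`. -/
def Barrier (E c t₀ T : ℝ) (n : ℝ → ℕ) : Prop :=
  MonotoneOn n (Ico t₀ T) ∧
  (∀ t ∈ Ico t₀ T, (∀ᶠ s in 𝓝[>] t, n s = n t) ∧
    E * ((n t : ℝ) ^ 2 * Real.sqrt (n t)) * (T - t) ≤ c)

/-- The solution does not blow up at `T`: bounded `L²` norm of the third derivatives. -/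
def NoBlowUp (T : ℝ) (u : ℝ → V → V) : Prop := ∃ M, ∀ t ∈ Ico 0 T, inner3 (u t) (u t) ≤ M

theorem inner3_eq (v : V → V) : inner3 v v = H459R3.EU.dsq v := by
  unfold inner3 H459R3.EU.dsq H459R3.EU.d3
  simp_rw [← sq]

theorem high_eq (n : ℕ) (v : V → V) : inner3 (high n v) (high n v) = SB.yy n v := by
  rw [inner3_eq]
  rfl

theorem result :
    -- general barriers
    (∃ C : ℝ, 0 < C ∧ ∀ (ν T E t₀ : ℝ) (u : ℝ → V → V) (p : ℝ → V → ℝ) (n : ℝ → ℕ)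
      (b b' : ℝ → ℝ), 0 ≤ ν → IsSol ν T u p → 0 ≤ E → energy (u 0) ≤ E ^ 2 → 0 ≤ t₀ →
      MonotoneOn n (Ico t₀ T) → (∀ t ∈ Ico t₀ T, ∀ᶠ s in 𝓝[>] t, n s = n t) →
      ContinuousWithinAt b (Ici t₀) t₀ → (∀ t ∈ Ioo t₀ T, HasDerivAt b (b' t) t) →
      inner3 (high (n t₀) (u t₀)) (high (n t₀) (u t₀)) < b t₀ →
      (∀ t ∈ Ioo t₀ T, inner3 (high (n t) (u t)) (high (n t) (u t)) = b t →
        flux (n t) (u t) + C * (E * ((n t : ℝ) ^ 2 * Real.sqrt (n t)) * b t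
          + Real.sqrt (b t) * b t) < b' t) →
      ∀ t ∈ Ico t₀ T, inner3 (high (n t) (u t)) (high (n t) (u t)) ≤ b t) ∧
    -- moving barriers, flux
    (∃ c : ℝ, 0 < c ∧ ∀ (ν T E t₀ : ℝ) (u : ℝ → V → V) (p : ℝ → V → ℝ) (n : ℝ → ℕ),
      0 ≤ ν → IsSol ν T u p → 0 ≤ E → energy (u 0) ≤ E ^ 2 → t₀ ∈ Ico 0 T →
      Barrier E c t₀ T n →
      (T - t₀) ^ 2 * inner3 (high (n t₀) (u t₀)) (high (n t₀) (u t₀)) ≤ c →
      (∀ t ∈ Ioo t₀ T, (T - t) ^ 3 * flux (n t) (u t) ≤ c) → NoBlowUp T u) ∧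
    -- moving barriers, shell
    (∀ K : ℝ, 0 < K → ∃ c : ℝ, 0 < c ∧ ∀ (ν T E t₀ : ℝ) (u : ℝ → V → V) (p : ℝ → V → ℝ)
      (n : ℝ → ℕ), 0 ≤ ν → IsSol ν T u p → 0 ≤ E → energy (u 0) ≤ E ^ 2 → t₀ ∈ Ico 0 T →
      Barrier E c t₀ T n →
      (T - t₀) ^ 2 * inner3 (high (n t₀) (u t₀)) (high (n t₀) (u t₀)) ≤ c →
      (∀ t ∈ Ioo t₀ T, (n t : ℝ) * shell (n t) (u t) ≤ K * E) → NoBlowUp T u) ∧
    -- the largest barrier
    (∀ (c E t₀ T : ℝ), 0 < c → 0 < E →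
      Barrier E c t₀ T fun t => ⌊(c / (E * (T - t))) ^ (2 / 5 : ℝ)⌋₊) ∧
    -- fixed barriers, shell
    (∃ C : ℝ, 0 < C ∧ ∀ (ν T E : ℝ) (u : ℝ → V → V) (p : ℝ → V → ℝ) (n : ℕ),
      0 ≤ ν → IsSol ν T u p → 0 ≤ E → energy (u 0) ≤ E ^ 2 → 0 < T → 1 ≤ n →
      T ^ 2 * inner3 (high n (u 0)) (high n (u 0))
        ≤ Real.exp (-(C * (1 + E * ((n : ℝ) ^ 2 * Real.sqrt n) * T))) →
      (∀ t ∈ Ioo 0 T, T * ((n : ℝ) ^ 8 * Real.sqrt n) * shell n (u t)
        ≤ Real.exp (-(C * (1 + E * ((n : ℝ) ^ 2 * Real.sqrt n) * T)))) → NoBlowUp T u) := by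
  refine ⟨⟨10 ^ 8, by norm_num, ?_⟩, ⟨1 / 10 ^ 19, by norm_num, ?_⟩, ?_, ?_,
    ⟨10 ^ 9, by norm_num, ?_⟩⟩
  · intro ν T E t₀ u p n b b' hν h hE0 hE ht₀ hn hr hb0 hb h0 hD
    simp only [high_eq] at h0 hD ⊢
    exact SB.yy_le h hν hE0 hE ht₀ hn hr hb0 hb h0 hD
  · intro ν T E t₀ u p n hν h hE0 hE ht₀ hn h0 hf
    simp only [high_eq] at h0
    obtain ⟨M, hM⟩ := SB.moving_flux h hν hE0 hE ht₀ hn.1 (fun t ht => (hn.2 t ht).1)
      (fun t ht => (hn.2 t ht).2) h0 (fun t ht => (hf t ht).trans (by norm_num))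
    exact ⟨M, fun t ht => by rw [inner3_eq]; exact hM t ht⟩
  · intro K hK
    refine ⟨min (1 / 10 ^ 19) (1 / 10 ^ 29 / K), by positivity, ?_⟩
    intro ν T E t₀ u p n hν h hE0 hE ht₀ hn h0 hf
    simp only [high_eq] at h0
    have hcK : min (1 / 10 ^ 19) (1 / 10 ^ 29 / K) * K ≤ 1 / 10 ^ 29 := by
      calc min (1 / 10 ^ 19) (1 / 10 ^ 29 / K) * K ≤ (1 / 10 ^ 29 / K) * K :=
            mul_le_mul_of_nonneg_right (min_le_right _ _) hK.le
        _ = 1 / 10 ^ 29 := by field_simp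
    obtain ⟨M, hM⟩ := SB.moving_shell hK (by positivity) (min_le_left _ _) hcK h hν hE0 hE ht₀
      hn.1 (fun t ht => (hn.2 t ht).1) (fun t ht => (hn.2 t ht).2) h0 hf
    exact ⟨M, fun t ht => by rw [inner3_eq]; exact hM t ht⟩
  · intro c E t₀ T hc hE
    exact ⟨SB.bar_mono hc hE t₀, fun t ht => ⟨SB.bar_right hc hE ht.2,
      SB.bar_small hc hE ht.2⟩⟩
  · intro ν T E u p n hν h hE0 hE hT hn h0 hf
    simp only [high_eq] at h0
    obtain ⟨M, hM⟩ := SB.fixed_shell h hν hE0 hE hT hn h0 (fun t ht => by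
      have := hf t ht
      have e : (n : ℝ) ^ 8 * Real.sqrt n = (n : ℝ) ^ 6 * SB.G n := by
        unfold SB.G
        ring
      rw [e] at this
      exact this)
    exact ⟨M, fun t ht => by rw [inner3_eq]; exact hM t ht⟩

end Pool.Agent.Results.MP_b0497c_an.SpectralBarrier
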